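import Pool.Agent.TH144.MB.Hyper

/-!
# Fujita's very ampleness conjecture for étale quotients by small diagonal groups

`Y ⊂ P^N` is given by a homogeneous ideal `I`, and a finite group `G` acts by diagonal matrices on
`P^N`, preserving `Y`, freely on `Y`. Let `ω_Y = O(κ)` and `n = dim Y`, and let `Y` be a complete
intersection, or arithmetically Cohen-Macaulay. For `X = Y/G` and a line bundle `A` on `X` whose
pullback to `Y` is `O(k)`, `k ≥ 1`, the sections of `K_X + mA` are the forms of degree `κ + mk` on the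
cone over `Y` on which `G` acts by a given character `χ`. Let `m ≥ n + 2`, and let `G` have at most
`κ + mk` elements, or let `Y` be a hypersurface of positive dimension. Then these sections have no
common zero, separate points and separate tangent vectors.
-/

set_option autoImplicit false

namespace Pool.Agent.Results.MP_e09b14_ag.SmallDiagonalQuotients

open MvPolynomial

/-- A homogeneous ideal `I` in `ℂ[x_0, …, x_N]` and an action of `G` on `ℂ^(N+1)` by diagonal
matrices, the `i`-th coordinate being multiplied by the character `α i`. The ideal `I` is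
stable under `G`, and no element `g ≠ 1` fixes a line in its zero set. -/
structure DiagonalCover (G : Type) [Group G] (N : ℕ) where
  I : Ideal (MvPolynomial (Fin (N + 1)) ℂ)
  homogeneous : ∀ p ∈ I, ∀ n, homogeneousComponent n p ∈ I
  α : Fin (N + 1) → G →* ℂˣ
  stable : ∀ (g : G), ∀ p ∈ I, bind₁ (fun i => C (α i g : ℂ) * X i) p ∈ I
  free : ∀ v : Fin (N + 1) → ℂ, v ≠ 0 → (∀ p ∈ I, eval v p = 0) → ∀ (g : G) (μ : ℂ),
    (∀ i, (α i g : ℂ) * v i = μ * v i) → g = 1

/-- the linear form with coefficients `a` -/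
noncomputable def linForm {N : ℕ} (a : Fin (N + 1) → ℂ) : MvPolynomial (Fin (N + 1)) ℂ :=
  ∑ i, C (a i) * X i

/-- `I` is generated by `c = N - n` forms of degrees `d j ≥ 1`, and `κ = ∑ d j - (N + 1)`. -/
def CompleteIntersection {N : ℕ} (I : Ideal (MvPolynomial (Fin (N + 1)) ℂ)) (n : ℕ) (κ : ℤ) :
    Prop :=
  ∃ (c : ℕ) (f : Fin c → MvPolynomial (Fin (N + 1)) ℂ) (d : Fin c → ℕ),
    (∀ j, (f j).IsHomogeneous (d j) ∧ 0 < d j) ∧ I = Ideal.span (Set.range f) ∧
    N = n + c ∧ κ = ∑ j, (d j : ℤ) - (N + 1)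

/-- There are `n + 1` linear forms which are a regular sequence modulo `I`, and modulo `I` and these
linear forms there are no nonzero forms of degree `> κ + n + 1`. For the ideal of an arithmetically
Cohen-Macaulay variety of dimension `n` this says that the `a`-invariant is at most `κ`. -/
def CohenMacaulay {N : ℕ} (I : Ideal (MvPolynomial (Fin (N + 1)) ℂ)) (n : ℕ) (κ : ℤ) : Prop :=
  ∃ a : Fin (n + 1) → Fin (N + 1) → ℂ,
    (∀ i p, linForm (a i) * p ∈ I ⊔ Ideal.span ((fun j => linForm (a j)) '' {j | j < i}) →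
      p ∈ I ⊔ Ideal.span ((fun j => linForm (a j)) '' {j | j < i})) ∧
    ∀ t : ℕ, κ + n + 1 < t → ∀ p : MvPolynomial (Fin (N + 1)) ℂ, p.IsHomogeneous t →
      p ∈ I ⊔ Ideal.span (Set.range fun j => linForm (a j))

/-- The forms of degree `e` on which `G` acts by the character `χ`: the sections of the line bundle
on `X = Y/G` given by `e` and `χ`. -/
def Section {G : Type} [Group G] {N : ℕ} (D : DiagonalCover G N) (e : ℕ) (χ : G →* ℂˣ)
    (F : MvPolynomial (Fin (N + 1)) ℂ) : Prop :=
  F.IsHomogeneous e ∧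
    ∀ (g : G) (x : Fin (N + 1) → ℂ), eval (fun i => (D.α i g : ℂ) * x i) F = χ g * eval x F

open Pool.Agent.TH144.MB in
theorem reg_ofFn {N : ℕ} (s : ℕ) : ∀ (a : Fin s → Fin (N + 1) → ℂ)
    (I : Ideal (MvPolynomial (Fin (N + 1)) ℂ)),
    (∀ i p, linForm (a i) * p ∈ I ⊔ Ideal.span ((fun j => linForm (a j)) '' {j | j < i}) →
      p ∈ I ⊔ Ideal.span ((fun j => linForm (a j)) '' {j | j < i})) →
    Reg I ((List.ofFn a).map lin) := by
  induction s with
  | zero => intro a I _; simp [Reg]
  | succ s ih =>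
    intro a I h
    rw [List.ofFn_succ, List.map_cons]
    refine ⟨?_, ih _ _ ?_⟩
    · have h0 := h 0
      have h1 : {j : Fin (s + 1) | j < 0} = ∅ := by
        ext j
        simp
      rw [h1, Set.image_empty, Ideal.span_empty, sup_bot_eq] at h0
      exact h0
    · intro i p
      have h0 := h i.succ p
      have h1 : {j : Fin (s + 1) | j < i.succ} = {0} ∪ Fin.succ '' {j | j < i} := by
        ext j
        refine Fin.cases ?_ (fun j => ?_) j
        · simp
        · simp [Fin.succ_ne_zero]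
      have h2 : I ⊔ Ideal.span ((fun j => linForm (a j)) '' {j | j < i.succ})
          = I ⊔ Ideal.span {lin (a 0)}
            ⊔ Ideal.span ((fun j => linForm (a (Fin.succ j))) '' {j | j < i}) := by
        rw [h1, Set.image_union, Set.image_singleton, Ideal.span_union, ← sup_assoc,
          Set.image_image]
        rfl
      rw [h2] at h0
      exact h0

open Pool.Agent.TH144.MB in
theorem le_ext_ofFn {N : ℕ} (s : ℕ) (a : Fin s → Fin (N + 1) → ℂ)
    (I : Ideal (MvPolynomial (Fin (N + 1)) ℂ)) :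
    I ⊔ Ideal.span (Set.range fun j => linForm (a j)) ≤ ext I ((List.ofFn a).map lin) := by
  have h4 : ∀ (L : List (MvPolynomial (Fin (N + 1)) ℂ))
      (I : Ideal (MvPolynomial (Fin (N + 1)) ℂ)), ∀ f ∈ L, f ∈ ext I L := by
    intro L
    induction L with
    | nil => intro I f hf; simp at hf
    | cons g L ih =>
      intro I f hf
      rw [ext_cons]
      rcases List.mem_cons.1 hf with rfl | hf
      · exact Ideal.mem_sup_right (Ideal.mem_span_singleton_self f)
      · exact Ideal.mem_sup_left (ih I f hf)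
  refine sup_le (le_ext _ _) ?_
  rw [Ideal.span_le]
  rintro _ ⟨j, rfl⟩
  refine h4 _ _ _ (List.mem_map.2 ⟨a j, ?_, rfl⟩)
  rw [List.mem_ofFn]
  exact ⟨j, rfl⟩

theorem result {G : Type} [Group G] [Finite G] {N : ℕ} (D : DiagonalCover G N) (n : ℕ) (κ : ℤ)
    (hY : CompleteIntersection D.I n κ ∨ CohenMacaulay D.I n κ)
    (k m e : ℕ) (hk : 1 ≤ k) (hm : n + 2 ≤ m) (he : (e : ℤ) = κ + m * k)
    (hG : Nat.card G ≤ e ∨ CompleteIntersection D.I n κ ∧ 1 ≤ n ∧ N = n + 1)
    (χ : G →* ℂˣ) :
    -- no base points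
    (∀ y : Fin (N + 1) → ℂ, y ≠ 0 → (∀ p ∈ D.I, eval y p = 0) →
      ∃ F, Section D e χ F ∧ eval y F ≠ 0) ∧
    -- points are separated
    (∀ y z : Fin (N + 1) → ℂ, y ≠ 0 → z ≠ 0 → (∀ p ∈ D.I, eval y p = 0) →
      (∀ p ∈ D.I, eval z p = 0) → (¬ ∃ (g : G) (c : ℂ), ∀ i, z i = c * (D.α i g * y i)) →
      ∃ F, Section D e χ F ∧ eval y F = 0 ∧ eval z F ≠ 0) ∧
    -- tangent vectors are separated
    (∀ y u : Fin (N + 1) → ℂ, y ≠ 0 → (∀ p ∈ D.I, eval y p = 0) →
      (∀ p ∈ D.I, ∑ i, eval y (pderiv i p) * u i = 0) → (¬ ∃ c : ℂ, ∀ i, u i = c * y i) →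
      ∃ F, Section D e χ F ∧ eval y F = 0 ∧ ∑ i, eval y (pderiv i F) * u i ≠ 0) := by
  classical
  have _ := Fintype.ofFinite G
  have hmk : (n : ℤ) + 2 ≤ m * k := by
    have h1 : n + 2 ≤ m * k := hm.trans (Nat.le_mul_of_pos_right m hk)
    exact_mod_cast h1
  have hst : ∀ v : Fin (N + 1) → ℂ, (∀ p ∈ D.I, eval v p = 0) → ∀ (g : G), ∀ p ∈ D.I,
      eval (Pool.Agent.TH144.MB.mv D.α g v) p = 0 := by
    intro v hv g p hp
    rw [← Pool.Agent.TH144.MB.eval_act]
    exact hv _ (D.stable g p hp)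
  let S : Pool.Agent.TH144.MB.Sit ℂ G (N + 1) :=
    { I := D.I, hom := D.homogeneous, α := D.α, stable := hst, free := D.free }
  have key : ∀ y : Fin (N + 1) → ℂ, (∀ p ∈ D.I, eval y p = 0) →
      ∃ ρ, Pool.Agent.TH144.MB.TopBound D.I ρ ∧ ρ + 1 ≤ e := by
    intro y hy
    rcases hY with ⟨c, f, d, hfd, hI, hN, hκ⟩ | ⟨a, ha, hb⟩
    · refine ⟨∑ j, (d j - 1), ?_, ?_⟩
      · rw [hI]
        exact Pool.Agent.TH144.MB.topBound_forms f d (fun j => (hfd j).1) fun j => (hfd j).2
      · have h1 : ((∑ j, (d j - 1) : ℕ) : ℤ) = ∑ j, (d j : ℤ) - c := by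
          rw [Nat.cast_sum]
          have h2 : ∀ j, ((d j - 1 : ℕ) : ℤ) = (d j : ℤ) - 1 := fun j => by
            have := (hfd j).2
            omega
          simp only [h2]
          rw [Finset.sum_sub_distrib]
          simp
        have h3 : (N : ℤ) = n + c := by exact_mod_cast hN
        have h4 : ((∑ j, (d j - 1) : ℕ) : ℤ) + 1 ≤ e := by
          rw [h1, he, hκ, h3]
          linarith
        exact_mod_cast h4
    · -- the degree bound
      rcases lt_or_ge (κ + n + 1) 0 with h0 | h0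
      · exfalso
        have h1 := hb 0 (by simpa using h0) 1 (isHomogeneous_one _ _)
        have h2 : D.I ⊔ Ideal.span (Set.range fun j => linForm (a j))
            ≤ RingHom.ker (eval (fun i => (0 : ℂ) * y i)) := by
          refine sup_le (fun p hp => RingHom.mem_ker.2
            (Pool.Agent.TH144.MB.cone D.homogeneous hy 0 p hp)) ?_
          rw [Ideal.span_le]
          rintro _ ⟨j, rfl⟩
          refine RingHom.mem_ker.2 ?_
          simp [linForm]
        have h3 := RingHom.mem_ker.1 (h2 h1)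
        rw [map_one] at h3
        exact one_ne_zero h3
      · refine ⟨(κ + n + 1).toNat, ?_, by omega⟩
        refine Pool.Agent.TH144.MB.topBound_cm D.homogeneous (List.ofFn a)
          (reg_ofFn (n + 1) a D.I ha) ?_
        intro t ht p hp
        refine le_ext_ofFn (n + 1) a D.I (hb t ?_ p hp)
        omega
  have hr : Fintype.card G ≤ e := by
    rcases hG with hG | ⟨⟨c, f, d, hfd, hI, hN, hκ⟩, hn, hNn⟩
    · rwa [Nat.card_eq_fintype_card] at hG
    · obtain rfl : c = 1 := by omega
      have h1 : Set.range f = {f 0} := by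
        ext x
        simp [eq_comm]
      rw [h1] at hI
      have h2 := S.card_le (hfd 0).1 (hfd 0).2 hI (i := ⟨0, by omega⟩) (j := ⟨1, by omega⟩)
        (by simp)
      have h3 : (d 0 : ℤ) ≤ e := by
        rw [he, hκ, Fin.sum_univ_one, hNn]
        push_cast
        linarith
      have h4 : d 0 ≤ e := by exact_mod_cast h3
      exact h2.trans h4
  refine ⟨?_, ?_, ?_⟩
  · intro y hy0 hy
    obtain ⟨ρ, hρ, hρe⟩ := key y hy
    obtain ⟨μ, h1, h2, h3⟩ := S.exists_mono hρ hy0 hy χ (t := e) (by omega)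
    have h4 := Pool.Agent.TH144.MB.typ_monomial h2
    rw [h1] at h4
    exact ⟨_, h4, by rw [Pool.Agent.TH144.MB.eval_mono]; exact h3⟩
  · intro y z hy0 hz0 hy hz hyz
    obtain ⟨ρ, hρ, hρe⟩ := key y hy
    obtain ⟨F, h1, h2, h3⟩ := S.points hρ (y := z) (y' := y) hz0 hz hy0 hy (by
      intro g h
      obtain ⟨c, hc⟩ := Submodule.mem_span_singleton.1 h
      have hc0 : c ≠ 0 := by
        rintro rfl
        rw [zero_smul] at hc
        exact hy0 (funext fun i =>
          (Pool.Agent.TH144.MB.mv_supp D.α g y i).1 (congrFun hc i).symm)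
      refine hyz ⟨g, c⁻¹, fun i => ?_⟩
      have h1 := congrFun hc i
      simp only [Pi.smul_apply, smul_eq_mul, Pool.Agent.TH144.MB.mv] at h1
      have h2 : z i = c⁻¹ * (c * z i) := by
        rw [← mul_assoc, inv_mul_cancel₀ hc0, one_mul]
      rw [h2, h1]) χ hρe hr
    exact ⟨F, h1, h3, h2⟩
  · intro y u hy0 hy hu hne
    obtain ⟨ρ, hρ, hρe⟩ := key y hy
    exact S.tangents D.stable hρ hy0 hy hu (by
      intro h
      obtain ⟨c, hc⟩ := Submodule.mem_span_singleton.1 h
      exact hne ⟨c, fun i => by rw [← hc]; rfl⟩) χ hρe hr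

end Pool.Agent.Results.MP_e09b14_ag.SmallDiagonalQuotients
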